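import Mathlib

set_option autoImplicit false

open Filter Topology Set Function

namespace Pool.Agent.H.MP_25bc1d_an

noncomputable def g (s : ℝ) (b : Bool) (y : ℝ) : ℝ := if b then 1 - y / s else y / s

def Orb (s : ℝ) (w : ℕ → Bool) (m : ℕ) (y : ℕ → ℝ) : Prop := ∀ k < m, y k = g s (w k) (y (k + 1))

def Sol (s : ℝ) (w : ℕ → Bool) (y : ℕ → ℝ) : Prop :=
  (∀ k, y k ∈ Icc (0 : ℝ) 1) ∧ ∀ k, y k = g s (w k) (y (k + 1))

variable {s : ℝ}

theorem g_mem (hs : 1 < s) (b : Bool) {y : ℝ} (h : y ∈ Icc (0 : ℝ) 1) : g s b y ∈ Icc (0 : ℝ) 1 := by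
  have h1 : 0 ≤ y / s := div_nonneg h.1 (by linarith)
  have h2 : y / s ≤ 1 := (div_le_one (by linarith)).2 (by linarith [h.2])
  cases b <;> simp [g, h1, h2]

theorem g_abs (hs : 1 < s) (b : Bool) (y z : ℝ) : |g s b y - g s b z| = |y - z| / s := by
  cases b
  · simp only [g, Bool.false_eq_true, if_false]
    rw [← sub_div, abs_div, abs_of_pos (by linarith : 0 < s)]
  · simp only [g, if_true]
    rw [show 1 - y / s - (1 - z / s) = -((y - z) / s) by ring, abs_neg, abs_div,
      abs_of_pos (by linarith : 0 < s)]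

theorem orb_ex (w : ℕ → Bool) (m : ℕ) (z : ℝ) : ∃ y, Orb s w m y ∧ y m = z := by
  induction m generalizing w with
  | zero => exact ⟨fun _ => z, fun _ h => by omega, rfl⟩
  | succ m ih =>
    obtain ⟨y, h1, h2⟩ := ih fun k => w (k + 1)
    refine ⟨fun k => Nat.casesOn k (g s (w 0) (y 0)) y, fun k hk => ?_, h2⟩
    cases k with
    | zero => rfl
    | succ k => exact h1 k (by omega)

theorem orb_mem (hs : 1 < s) {w : ℕ → Bool} {m : ℕ} {y : ℕ → ℝ} (h : Orb s w m y)
    (hm : y m ∈ Icc (0 : ℝ) 1) (k : ℕ) (hk : k ≤ m) : y k ∈ Icc (0 : ℝ) 1 := by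
  induction hk using Nat.decreasingInduction with
  | self => exact hm
  | of_succ k h1 ih => rw [h k h1]; exact g_mem hs _ ih

theorem orb_abs (hs : 1 < s) {w : ℕ → Bool} {m : ℕ} {y z : ℕ → ℝ} (h : Orb s w m y)
    (h' : Orb s w m z) (k : ℕ) (hk : k ≤ m) : |y k - z k| * s ^ (m - k) = |y m - z m| := by
  induction hk using Nat.decreasingInduction with
  | self => simp
  | of_succ k h1 ih =>
    rw [h k h1, h' k h1, g_abs hs, ← ih, show m - k = m - (k + 1) + 1 by omega, pow_succ]
    field_simp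

theorem sol_ex (hs : 1 < s) (w : ℕ → Bool) : ∃ y, Sol s w y := by
  have := IsCompact.nonempty_iInter_of_sequence_nonempty_isCompact_isClosed
    (fun m => {y : ℕ → ℝ | (∀ k, y k ∈ Icc (0 : ℝ) 1) ∧ Orb s w m y})
    (fun m y h => ⟨h.1, fun k hk => h.2 k (by omega)⟩) (fun m => ?_) ?_ fun m => ?_
  · obtain ⟨y, hy⟩ := this
    exact ⟨y, (mem_iInter.1 hy 0).1, fun k => (mem_iInter.1 hy (k + 1)).2 k (by omega)⟩
  · obtain ⟨y, h1, h2⟩ := orb_ex (s := s) w m 0
    refine ⟨fun k => y (min k m), fun k => orb_mem hs h1 (by simp [h2]) _ (min_le_right _ _),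
      fun k hk => ?_⟩
    simp only [min_eq_left hk.le, min_eq_left (show k + 1 ≤ m from hk)]
    exact h1 k hk
  · convert isCompact_pi_infinite fun _ : ℕ => isCompact_Icc (a := (0 : ℝ)) (b := 1) using 2
    simp [Orb]
  · simp only [Orb, ofPred_and, ofPred_forall]
    refine (isClosed_iInter fun k => isClosed_Icc.preimage (continuous_apply k)).inter
      (isClosed_iInter fun k => isClosed_iInter fun _ => isClosed_eq (continuous_apply k) ?_)
    unfold g
    split_ifs <;> fun_prop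

theorem sol_uniq (hs : 1 < s) {w : ℕ → Bool} {y z : ℕ → ℝ} (h : Sol s w y) (h' : Sol s w z) :
    y 0 = z 0 := by
  by_contra k
  obtain ⟨m, hm⟩ := ((tendsto_pow_atTop_atTop_of_one_lt hs).const_mul_atTop
    (abs_pos.2 (sub_ne_zero.2 k))).eventually_gt_atTop 1 |>.exists
  have := orb_abs hs (m := m) (fun k _ => h.2 k) (fun k _ => h'.2 k) 0 m.zero_le
  rw [Nat.sub_zero] at this
  have : |y m - z m| ≤ 1 := abs_le.2 ⟨by linarith [(h.1 m).1, (h'.1 m).2],
    by linarith [(h.1 m).2, (h'.1 m).1]⟩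
  linarith

theorem Sol.shift {w : ℕ → Bool} {y : ℕ → ℝ} (h : Sol s w y) (m : ℕ) :
    Sol s (fun k => w (m + k)) fun k => y (m + k) := ⟨fun _ => h.1 _, fun _ => h.2 _⟩

theorem step (hs : 1 < s) {b c : Bool} {x y x' y' : ℝ} (hx : x ≤ 1) (hy : y ≤ 1)
    (hx' : x' < s / 2) (hy' : y' < s / 2) (h1 : b = c → x < y → x' < y')
    (h2 : b = c → y < x → y' < x') (h : g 2 b x < g 2 c y) : g s b x' < g s c y' := by
  have s0 : 0 < s := by linarith
  have e : ∀ t, t < s / 2 → t / s < 1 / 2 := fun t ht => by rw [div_lt_iff₀ s0]; linarith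
  cases b <;> cases c <;> simp only [g, Bool.false_eq_true, if_false, if_true] at h ⊢
  · exact div_lt_div_of_pos_right (h1 rfl (by linarith)) s0
  · linarith [e _ hx', e _ hy']
  · linarith
  · linarith [div_lt_div_of_pos_right (h2 rfl (by linarith)) s0]

theorem sol_ord (hs : 1 < s) {v w : ℕ → Bool} {x y x' y' : ℕ → ℝ} (hx : Sol 2 v x) (hy : Sol 2 w y)
    (hx' : Sol s v x') (hy' : Sol s w y') (h1 : ∀ k, x' (k + 1) < s / 2)
    (h2 : ∀ k, y' (k + 1) < s / 2) (h : x 0 < y 0) : x' 0 < y' 0 := by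
  have : ∃ d, v d ≠ w d := by
    by_contra! k
    exact h.ne (sol_uniq one_lt_two hx (funext k ▸ hy))
  obtain ⟨d, hd⟩ := this
  induction d generalizing v w x y x' y' with
  | zero =>
    rw [hx.2, hy.2] at h
    rw [hx'.2, hy'.2]
    exact step hs (hx.1 _).2 (hy.1 _).2 (h1 0) (h2 0) (fun k => absurd k hd)
      (fun k => absurd k hd) h
  | succ d ih =>
    rw [hx.2, hy.2] at h
    rw [hx'.2, hy'.2]
    rw [add_comm] at hd
    exact step hs (hx.1 _).2 (hy.1 _).2 (h1 0) (h2 0)
      (fun _ k => ih (hx.shift 1) (hy.shift 1) (hx'.shift 1) (hy'.shift 1) (fun k => h1 _)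
        (fun k => h2 _) k hd)
      (fun _ k => ih (hy.shift 1) (hx.shift 1) (hy'.shift 1) (hx'.shift 1) (fun k => h2 _)
        (fun k => h1 _) k hd.symm) h

theorem orb_ord (hs : 1 < s) {w : ℕ → Bool} {m : ℕ} {x y : ℕ → ℝ} (hx : Orb 2 w m x)
    (hy : Orb s w m y) (x1 : ∀ k, x k ≤ 1) (y1 : ∀ k < m, y (k + 1) < s / 2)
    (h1 : ∀ i < m, (x i < x m → y i < y m) ∧ (x m < x i → y m < y i)) (j : ℕ) (hj : j ≤ m) :
    ∀ i < j, (x i < x j → y i < y j) ∧ (x j < x i → y j < y i) := by
  induction hj using Nat.decreasingInduction with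
  | self => exact h1
  | of_succ j hj ih =>
    intro i hi
    have := ih (i + 1) (by omega)
    rw [hx i (by omega), hx j hj, hy i (by omega), hy j hj]
    exact ⟨step hs (x1 _) (x1 _) (y1 i (by omega)) (y1 j hj) (fun _ => this.1) fun _ => this.2,
      step hs (x1 _) (x1 _) (y1 j hj) (y1 i (by omega)) (fun _ => this.2) fun _ => this.1⟩

theorem low (hs : 1 < s) {w : ℕ → Bool} {y : ℕ → ℝ} (h : Sol s w y) {M : ℝ} (M1 : M ≤ 1)
    (hM : ∀ k, y (k + 1) ≤ M) (j t r : ℕ) (h1 : t ≤ r) (h2 : r ≤ t + j) (h3 : w r = true) :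
    1 - M / s ≤ y t * s ^ j := by
  have s0 : 0 < s := by linarith
  have e : M / s ≤ 1 := (div_le_one s0).2 (by linarith)
  have b : ∀ t j, w t = true → 1 - M / s ≤ y t * s ^ j := fun t j k => by
    have := one_le_pow₀ (n := j) hs.le
    have h4 : 1 - M / s ≤ y t := by
      rw [h.2, k, g, if_pos rfl]
      linarith [div_le_div_of_nonneg_right (hM t) s0.le]
    nlinarith [(h.1 t).1]
  induction j generalizing t with
  | zero => exact b t 0 (by rwa [le_antisymm h1 h2])
  | succ j ih =>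
    cases k : w t
    · have : t ≠ r := by rintro rfl; simp [k] at h3
      have := ih (t + 1) (by omega) (by omega)
      rw [h.2, k, g, if_neg (by simp), pow_succ]
      convert this using 1
      field_simp
    · exact b t _ k

def ext (w : ℕ → Bool) (m i k : ℕ) : Bool := if k < i then w k else w (i + (k - i) % (m - i))

theorem ext_lt (w : ℕ → Bool) {m : ℕ} (i : ℕ) {k : ℕ} (h : k < m) : ext w m i k = w k := by
  unfold ext
  split_ifs with h1
  · rfl
  · rw [Nat.mod_eq_of_lt (by omega)]; congr 1; omega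

theorem ext_per (w : ℕ → Bool) (m : ℕ) {i k : ℕ} (h : i ≤ k) :
    ext w m i (k + (m - i)) = ext w m i k := by
  unfold ext
  rw [if_neg (by omega), if_neg (by omega), show k + (m - i) - i = k - i + (m - i) by omega,
    Nat.add_mod_right]

theorem sol_per (hs : 1 < s) {w : ℕ → Bool} {m i : ℕ} {y : ℕ → ℝ} (h : Sol s (ext w m i) y)
    {k : ℕ} (hk : i ≤ k) : y (k + (m - i)) = y k := by
  refine sol_uniq hs (h.shift _) (y := fun t => y (k + (m - i) + t)) (z := fun t => y (k + t)) ?_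
  convert h.shift k using 2 with t
  rw [add_right_comm, ext_per w m (by omega)]

theorem ext_R {w : ℕ → Bool} {m i r : ℕ} (h1 : i ≤ r) (h2 : r < m) (h3 : w r = true) (t : ℕ)
    (ht : i ≤ t) : ∃ r, t ≤ r ∧ r < t + (m - i) ∧ ext w m i r = true := by
  induction t, ht using Nat.le_induction with
  | base => exact ⟨r, h1, by omega, by rwa [ext_lt w i h2]⟩
  | succ t ht ih =>
    obtain ⟨q, k1, k2, k3⟩ := ih
    rcases k1.eq_or_lt with rfl | k
    · exact ⟨t + (m - i), by omega, by omega, by rwa [ext_per w m ht]⟩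
    · exact ⟨q, k, by omega, k3⟩

theorem adm (hs : 1 < s) {w : ℕ → Bool} {m i r : ℕ} (hm : s ^ m * (2 - s) < 1)
    {y : ℕ → ℝ} (h : Sol s (ext w (m + 1) i) y) (h1 : i ≤ r) (h2 : r < m + 1) (h3 : w r = true)
    (k : ℕ) : y (k + 1) < s / 2 := by
  have s0 : 0 < s := by linarith
  have bd : BddAbove (range fun k => y (k + 1)) := ⟨1, by rintro _ ⟨k, rfl⟩; exact (h.1 _).2⟩
  set M := ⨆ k, y (k + 1)
  have hM : ∀ k, y (k + 1) ≤ M := fun k => le_ciSup bd k
  have M1 : M ≤ 1 := ciSup_le fun k => (h.1 _).2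
  refine (hM k).trans_lt ?_
  by_contra! c
  have p := one_le_pow₀ (n := m) hs.le
  have : M ≤ max (M / s) (max (1 - (1 - M / s) / s ^ m) (s ^ (m + 1) / (1 + s ^ (m + 1)))) := by
    refine ciSup_le fun k => ?_
    cases e : ext w (m + 1) i (k + 1)
    · rw [h.2, e, g, if_neg (by simp)]
      exact le_max_of_le_left (div_le_div_of_nonneg_right (hM _) s0.le)
    refine le_max_of_le_right ?_
    have e1 := h.2 (k + 1)
    rw [e, g, if_pos rfl] at e1
    by_cases q : ∃ r, k + 2 ≤ r ∧ r < k + 2 + m ∧ ext w (m + 1) i r = true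
    · obtain ⟨r, q1, q2, q3⟩ := q
      obtain ⟨m, rfl⟩ : ∃ j, m = j + 1 := ⟨m - 1, by omega⟩
      have := low hs h M1 hM m (k + 2) r q1 (by omega) q3
      refine le_max_of_le_left ?_
      rw [e1, sub_le_sub_iff_left, div_le_div_iff₀ (by positivity) s0, pow_succ]
      nlinarith
    · have i0 : i = 0 := by
        by_contra i0
        rcases le_total i (k + 2) with a | a
        · obtain ⟨r, q1, q2, q3⟩ := ext_R h1 h2 h3 _ a
          exact q ⟨r, q1, by omega, q3⟩
        · exact q ⟨r, by omega, by omega, by rwa [ext_lt w i h2]⟩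
      subst i0
      have z := orb_abs hs (w := fun t => ext w (m + 1) 0 (k + 2 + t)) (m := m)
        (fun t _ => (h.shift (k + 2)).2 t) (z := fun _ => 0) (fun t ht => by
          have : ext w (m + 1) 0 (k + 2 + t) = false := by
            by_contra a
            exact q ⟨k + 2 + t, by omega, by omega, by simpa using a⟩
          simp [this, g]) 0 m.zero_le
      have := sol_per hs h (k := k + 1) (Nat.zero_le _)
      simp only [sub_zero, Nat.sub_zero, add_zero, abs_of_nonneg (h.1 _).1] at z this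
      rw [show k + 2 + m = k + 1 + (m + 1) by omega, this] at z
      refine le_max_of_le_right ?_
      rw [le_div_iff₀ (by positivity), pow_succ]
      have : y (k + 1) * s = s - y (k + 2) := by rw [e1]; field_simp
      nlinarith
  rcases le_max_iff.1 this with a | a
  · rw [le_div_iff₀ s0] at a; nlinarith
  rcases le_max_iff.1 a with a | a
  · have : (1 - M / s) / s ^ m ≤ 1 - M := by linarith
    rw [div_le_iff₀ (by positivity)] at this
    have e : M / s * s = M := by field_simp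
    have : s - M ≤ (1 - M) * s ^ m * s := by nlinarith
    have : 0 ≤ (M - s / 2) * (s ^ m * s - 1) := mul_nonneg (by linarith) (by nlinarith)
    nlinarith
  · rw [le_div_iff₀ (by positivity), pow_succ] at a
    have : 0 ≤ (M - s / 2) * (1 + s ^ m * s) := mul_nonneg (by linarith) (by positivity)
    nlinarith

end Pool.Agent.H.MP_25bc1d_an
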